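import Pool.Agent.H14.KnillData
import Pool.Agent.H14.KnillDefs
import Pool.Agent.H14.Spec

set_option autoImplicit false
set_option maxRecDepth 100000

namespace Pool.Agent.Results.MP_5fc97f_co.Double

open Matrix Pool.Agent.H14 Pool.Agent.H14.Knill Pool.Agent.H14.KnillDefs

noncomputable abbrev c : Matrix (Fin 24) (Fin 24) ℤ →+* Matrix (Fin 24) (Fin 24) ℝ :=
  (Int.castRingHom ℝ).mapMatrix

theorem c_eq (M : Matrix (Fin 24) (Fin 24) ℤ) : M.map (Int.cast : ℤ → ℝ) = c M := rfl

theorem c_t (M : Matrix (Fin 24) (Fin 24) ℤ) : c Mᵀ = (c M)ᵀ := rfl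

theorem inv_eq : (conn cx)⁻¹ = c g := by
  have e : conn cx = c Lz := by ext i j; simp [conn, Lz]
  rw [e]
  exact inv_eq_right_inv (by rw [← map_mul, hLg, map_one])

def par : Fin 24 → Fin 24 := ![21, 12, 15, 9, 13, 21, 21, 22, 23, 21, 21, 21, 9, 12, 12, 13, 21, 15, 9, 13, 21, 21, 9, 16]
def lev : Fin 24 → ℕ := ![1, 3, 5, 2, 4, 1, 1, 3, 3, 1, 1, 1, 2, 3, 3, 4, 1, 5, 2, 4, 1, 0, 2, 2]

theorem connected : (interGraph cx).Connected := by
  have h : ∀ i, i = 21 ∨ (lev (par i) < lev i ∧ (cx i ∩ cx (par i)).Nonempty) := by decide +kernel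
  have k : ∀ m i, lev i = m → (interGraph cx).Reachable i 21 := by
    intro m
    induction m using Nat.strong_induction_on with
    | _ m ih =>
      intro i hi
      rcases h i with rfl | ⟨h1, h2⟩
      · rfl
      · refine (SimpleGraph.Adj.reachable ?_).trans (ih _ (hi ▸ h1) (par i) rfl)
        rw [interGraph, SimpleGraph.fromRel_adj]
        exact ⟨fun e => by rw [← e] at h1; omega, Or.inl h2⟩
  exact ⟨fun a b => (k _ a rfl).trans (k _ b rfl).symm⟩

theorem result : ∃ (n : ℕ) (x : Fin n → Finset (Fin 9)), IsComplex x ∧ (interGraph x).Connected ∧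
    IsUnit (conn x) ∧ ∃ t : ℝ, (∀ (μ : ℝ) (v : Fin n → ℝ), v ≠ 0 → (conn x)⁻¹ *ᵥ v = μ • v → |μ| ≤ t) ∧
      ∃ u v : Fin n → ℝ, LinearIndependent ℝ ![u, v] ∧ (conn x)⁻¹ *ᵥ u = t • u ∧
        (conn x)⁻¹ *ᵥ v = t • v := by
  refine ⟨24, cx, ⟨by decide +kernel, by decide +kernel, fun i s h1 h2 => ?_⟩, connected, ?_, ?_⟩
  · have : ∀ i, ∀ s ∈ (cx i).powerset, s.Nonempty → ∃ j, cx j = s := by decide +kernel
    exact this i s (Finset.mem_powerset.mpr h1) h2
  · have e : conn cx = c Lz := by ext i j; simp [conn, Lz]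
    rw [e]
    exact IsUnit.of_mul_eq_one (c g) (by rw [← map_mul, hLg, map_one])
  rw [inv_eq]
  have hA : (c g).IsHermitian := by
    rw [IsHermitian, conjTranspose_eq_transpose_of_trivial, ← c_t, hgt]
  obtain ⟨i, hi⟩ := Finite.exists_max hA.eigenvalues
  set t := hA.eigenvalues i
  set u : Fin 24 → ℝ := (hA.eigenvectorBasis i).ofLp
  have hu : c g *ᵥ u = t • u := hA.mulVec_eigenvectorBasis i
  have u0 : u ≠ 0 := fun h => hA.eigenvectorBasis.orthonormal.ne_zero i (by ext j; exact congrFun h j)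
  have pos : ∀ v : Fin 24 → ℝ, v ≠ 0 → 0 < v ⬝ᵥ v := fun v h0 =>
    lt_of_le_of_ne (Finset.sum_nonneg fun i _ => mul_self_nonneg (v i))
      (fun h => h0 (dotProduct_self_eq_zero.mp h.symm))
  have ht : 81 / 20 < t := by
    have h1 := Spec.rayleigh_le hA t hi fun a => (y a : ℝ)
    have h2 : (fun a => (y a : ℝ)) ⬝ᵥ (c g *ᵥ fun a => (y a : ℝ)) = 640 := by
      have := congrArg (Int.cast : ℤ → ℝ) hy.1
      simpa [dotProduct, mulVec] using this
    have h3 : (fun a => (y a : ℝ)) ⬝ᵥ (fun a => (y a : ℝ)) = 157 := by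
      have := congrArg (Int.cast : ℤ → ℝ) hy.2
      simpa [dotProduct] using this
    rw [h2, h3] at h1; linarith
  refine ⟨t, fun μ v hv h => ?_, u, c R *ᵥ u, ?_, hu, ?_⟩
  · have h1 := Spec.rayleigh_le hA t hi v
    have h2 := Psd.psd _ C2 d2 c2 v
    rw [c_eq, map_add, map_zsmul, map_one, add_mulVec, smul_mulVec, one_mulVec, h, dotProduct_add,
      dotProduct_smul, dotProduct_smul] at h2
    rw [h, dotProduct_smul] at h1
    simp only [zsmul_eq_mul, smul_eq_mul] at h1 h2
    have h3 := pos v hv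
    push_cast at h2
    rw [abs_le]; constructor <;> nlinarith
  · rw [LinearIndependent.pair_iff' u0]
    intro a ha
    have h1 : c Rᵀ *ᵥ u = (a * a) • u := by
      rw [← hR2, map_mul, ← mulVec_mulVec, ← ha, mulVec_smul, ← ha, smul_smul]
    have h2 : u = (a * a * a) • u := by
      conv_lhs => rw [← one_mulVec u, ← map_one c, ← hR3, map_mul, ← mulVec_mulVec, h1, mulVec_smul,
        ← ha, smul_smul]
    have h3 : a * a * a = 1 := by
      by_contra hne
      have : (a * a * a - 1) • u = 0 := by rw [sub_smul, ← h2, one_smul, sub_self]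
      exact u0 ((smul_eq_zero.mp this).resolve_left (sub_ne_zero.mpr hne))
    have h4 : a = 1 := by
      have : (a - 1) * (a * a + a + 1) = 0 := by linear_combination h3
      rcases mul_eq_zero.mp this with h | h
      · linarith
      · nlinarith [sq_nonneg (a + 1 / 2)]
    have h5 := Psd.psd _ C1 d1 c1 u
    simp only [c_eq, map_add, map_sub, map_zsmul, map_one, add_mulVec, sub_mulVec, smul_mulVec,
      one_mulVec, hu, h1, ← ha, h4, dotProduct_add, dotProduct_sub, dotProduct_smul] at h5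
    simp only [zsmul_eq_mul, smul_eq_mul] at h5
    push_cast at h5
    nlinarith [pos u u0]
  · rw [mulVec_mulVec, ← map_mul, hgR, map_mul, ← mulVec_mulVec, hu, mulVec_smul]

end Pool.Agent.Results.MP_5fc97f_co.Double
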